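import Pool.Agent.H48.CP.ThmB

/-!
A pair of elements broken by a cut (Claim 4 of note 3635 on MP_472c72).
-/

namespace H48CP

open Finset
open scoped Classical

namespace SG

variable {V : Type*} {G : SG V} {S : Finset V}

lemma claim4_aux (h : Ax True G S) {a b : V} (ha : a ∈ S) (hb : b ∈ S) (hab : G.adj a b)
    (hx : ∀ c ∈ S, c ≠ a → c ≠ b → (G.adj c a ↔ ¬ G.adj c b)) (sa : ¬ G.sg a) (sb : G.sg b) :
    ∀ c ∈ S, c ≠ b → G.adj c b := by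
  intro q hq hqb
  by_contra hqb'
  have hqa : q ≠ a := by
    rintro rfl
    exact hqb' hab
  have hqa' : G.adj q a := (hx q hq hqa hqb).2 hqb'
  have hbA : b ∈ G.As S a := mem_As.2 ⟨hb, G.symm hab⟩
  have hqA : q ∈ G.As S a := mem_As.2 ⟨hq, hqa'⟩
  have hbq : G.co.adj b q := ⟨hqb.symm, fun h' => hqb' (G.symm h')⟩
  obtain ⟨c, hc, sc, hrc, hdom⟩ := (thmA (h.loc_A ha)).dom b hbA (Or.inr ⟨q, hqA, hbq⟩)
  have hcA := mem_As.1 hc
  have hcb : c ≠ b := by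
    rintro rfl
    exact sc sb
  obtain ⟨z, hz, sz, za, zc, -⟩ := h.e2a a ha c hcA.1 (G.symm hcA.2) sa sc
  have hzA : z ∈ G.As S a := mem_As.2 ⟨hz, za⟩
  have hrz : G.co.Rch (G.As S a) b z := by
    by_cases hzb : z = b
    · subst hzb
      exact Relation.ReflTransGen.refl
    · have hza' : z ≠ a := adj_ne za
      have : ¬ G.adj z b := (hx z hz hza' hzb).1 za
      exact Relation.ReflTransGen.refl.tail ⟨hzA, fun e => hzb e.symm, fun h' => this (G.symm h')⟩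
  exact (hdom z hzA hrz (adj_ne zc)).2 (G.symm zc)

/-- Claim 4, adjacent pair -/
theorem claim4 (h : Ax True G S) {a b : V} (ha : a ∈ S) (hb : b ∈ S) (hab : G.adj a b)
    (hx : ∀ c ∈ S, c ≠ a → c ≠ b → (G.adj c a ↔ ¬ G.adj c b)) (hs : ¬ (G.sg a ∧ G.sg b)) :
    (¬ G.sg a ∧ G.sg b ∧ ∀ c ∈ S, c ≠ b → G.adj c b) ∨
    (¬ G.sg b ∧ G.sg a ∧ ∀ c ∈ S, c ≠ a → G.adj c a) := by
  by_cases sa : G.sg a
  · have sb : ¬ G.sg b := fun h' => hs ⟨sa, h'⟩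
    refine Or.inr ⟨sb, sa, claim4_aux h hb ha (G.symm hab) (fun c hc h1 h2 => ?_) sb sa⟩
    have := hx c hc h2 h1
    tauto
  · by_cases sb : G.sg b
    · exact Or.inl ⟨sa, sb, claim4_aux h ha hb hab hx sa sb⟩
    · exfalso
      obtain ⟨z, hz, sz, za, zb, -⟩ := h.e2a a ha b hb hab sa sb
      exact (hx z hz (adj_ne za) (adj_ne zb)).1 za zb

/-- Claim 4, pair which is not adjacent -/
theorem claim4' (h : Ax True G S) {a b : V} (ha : a ∈ S) (hb : b ∈ S) (hne : a ≠ b)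
    (hab : ¬ G.adj a b) (hx : ∀ c ∈ S, c ≠ a → c ≠ b → (G.adj c a ↔ ¬ G.adj c b))
    (hs : ¬ (¬ G.sg a ∧ ¬ G.sg b)) :
    (G.sg a ∧ ¬ G.sg b ∧ ∀ c ∈ S, ¬ G.adj c b) ∨
    (G.sg b ∧ ¬ G.sg a ∧ ∀ c ∈ S, ¬ G.adj c a) := by
  have key := claim4 h.co ha hb (⟨hne, hab⟩ : G.co.adj a b) (fun c hc h1 h2 => by
    have := hx c hc h1 h2
    simp only [SG.co]
    tauto) hs
  rcases key with ⟨h1, h2, h3⟩ | ⟨h1, h2, h3⟩
  · refine Or.inl ⟨not_not.1 h1, h2, fun c hc h' => ?_⟩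
    exact (h3 c hc (adj_ne h')).2 h'
  · refine Or.inr ⟨not_not.1 h1, h2, fun c hc h' => ?_⟩
    exact (h3 c hc (adj_ne h')).2 h'

end SG

end H48CP
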