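import Pool.Agent.H48.CP.ThmB
import Pool.Agent.H48.CP.Sdo

/-!
From pairs whose rows differ in at most one element to pairs which are neighbours in both orders
(notes 3635, 3639 on MP_472c72).
-/

namespace H48CP

open Finset
open scoped Classical

namespace SG

variable {V : Type*} {G G' : SG V} {S I : Finset V} {β : Prop}

lemma Tw.symm {a b : V} (h : Tw G S a b) : Tw G S b a where
  ha := h.hb
  hb := h.ha
  ne := h.ne.symm
  tw := fun v hv h1 h2 => (h.tw v hv h2 h1).symm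
  sgn := by
    have e : G.adj b a ↔ G.adj a b := ⟨G.symm, G.symm⟩
    rw [e]
    exact h.sgn.symm

/-- graphs which agree on `S` -/
def Agr (G G' : SG V) (S : Finset V) : Prop :=
  (∀ a ∈ S, ∀ b ∈ S, (G.adj a b ↔ G'.adj a b)) ∧ ∀ a ∈ S, (G.sg a ↔ G'.sg a)

lemma Agr.symm (h : Agr G G' S) : Agr G' G S :=
  ⟨fun a ha b hb => (h.1 a ha b hb).symm, fun a ha => (h.2 a ha).symm⟩

lemma Agr.btw (h : Agr G G' S) {a b z : V} (ha : a ∈ S) (hb : b ∈ S) (hz : z ∈ S)
    (hB : G.Btw S a b z) : G'.Btw S a b z := by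
  intro v hv h1 h2 h3
  rw [← h.1 v hv a ha, ← h.1 v hv b hb, ← h.1 v hv z hz]
  exact hB v hv h1 h2 h3

lemma Agr.tw (h : Agr G G' S) {a b : V} (ht : Tw G S a b) : Tw G' S a b where
  ha := ht.ha
  hb := ht.hb
  ne := ht.ne
  tw := by
    intro v hv h1 h2
    rw [← h.1 v hv a ht.ha, ← h.1 v hv b ht.hb]
    exact ht.tw v hv h1 h2
  sgn := by
    rw [← h.1 a ht.ha b ht.hb, ← h.2 a ht.ha, ← h.2 b ht.hb]
    exact ht.sgn

lemma Agr.p4 (h : Agr G G' S) {x s t y : V} (hx : x ∈ S) (hs : s ∈ S) (ht : t ∈ S) (hy : y ∈ S) :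
    G.P4 x s t y ↔ G'.P4 x s t y := by
  unfold P4
  rw [h.1 x hx s hs, h.1 s hs t ht, h.1 t ht y hy, h.1 x hx t ht, h.1 x hx y hy, h.1 s hs y hy]

lemma Agr.ax (h : Agr G G' S) (hA : Ax β G S) : Ax β G' S where
  e2a := by
    intro a ha b hb h1 h2 h3
    obtain ⟨z, hz, sz, za, zb, hB⟩ := hA.e2a a ha b hb ((h.1 a ha b hb).2 h1)
      (fun h' => h2 ((h.2 a ha).1 h')) (fun h' => h3 ((h.2 b hb).1 h'))
    exact ⟨z, hz, (h.2 z hz).1 sz, (h.1 z hz a ha).1 za, (h.1 z hz b hb).1 zb,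
      h.btw ha hb hz hB⟩
  e2b := by
    intro a ha b hb h0 h1 h2 h3 h4
    obtain ⟨z, hz, sz, za, zb, hB⟩ := hA.e2b a ha b hb h0 (fun h' => h1 ((h.1 a ha b hb).1 h'))
      ((h.2 a ha).2 h2) ((h.2 b hb).2 h3) (by
        rcases h4 with h4 | ⟨c, hc, c1, c2⟩
        · exact Or.inl h4
        · exact Or.inr ⟨c, hc, (h.1 c hc a ha).2 c1, (h.1 c hc b hb).2 c2⟩)
    exact ⟨z, hz, fun h' => sz ((h.2 z hz).2 h'), fun h' => za ((h.1 z hz a ha).2 h'),
      fun h' => zb ((h.1 z hz b hb).2 h'), h.btw ha hb hz hB⟩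
  e4 := by
    intro x hx s hs t ht y hy hP sx ss st sy
    rcases hA.e4 x hx s hs t ht y hy ((h.p4 hx hs ht hy).2 hP) (fun h' => sx ((h.2 x hx).1 h'))
      ((h.2 s hs).2 ss) ((h.2 t ht).2 st) (fun h' => sy ((h.2 y hy).1 h')) with
      ⟨k, hk, k1, k2, k3, k4, hPat, hcl⟩ | ⟨hβ, hE⟩
    · refine Or.inl ⟨k, hk, k1, k2, k3, k4, ?_, ?_⟩
      · unfold Pat at hPat ⊢
        rw [← h.1 k hk x hx, ← h.1 k hk s hs, ← h.1 k hk t ht, ← h.1 k hk y hy]
        exact hPat
      · intro p hp p1 p2 p3 p4 p5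
        rw [← h.1 p hp x hx, ← h.1 p hp s hs, ← h.1 p hp t ht, ← h.1 p hp y hy,
          ← h.1 p hp k hk]
        exact hcl p hp p1 p2 p3 p4 p5
    · refine Or.inr ⟨hβ, ?_⟩
      intro v hv v1 v2 v3 v4
      rw [← h.1 v hv x hx, ← h.1 v hv s hs, ← h.1 v hv t ht, ← h.1 v hv y hy]
      exact hE v hv v1 v2 v3 v4

/-- a module `I` with an outside twin `a` not adjacent to it is an alpha system -/
lemma Ax.win (h : Ax β G S) (hI : I ⊆ S) {a : V} (ha : a ∈ S) (haI : a ∉ I)
    (hN : ∀ v ∈ I, ¬ G.adj a v) (hM : ∀ w ∈ S, w ∉ I → w ≠ a → ∀ v ∈ I, (G.adj w v ↔ G.adj w a)) :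
    Ax False G I where
  e2a := by
    intro c hc d hd h1 h2 h3
    obtain ⟨z, hz, sz, zc, zd, hB⟩ := h.e2a c (hI hc) d (hI hd) h1 h2 h3
    have hza : z ≠ a := by
      rintro rfl
      exact hN c hc zc
    refine ⟨z, ?_, sz, zc, zd, fun v hv => hB v (hI hv)⟩
    by_contra hzI
    have h4 : G.adj z a := (hM z hz hzI hza c hc).1 zc
    rcases (hB a ha (fun e => haI (e ▸ hc)) (fun e => haI (e ▸ hd)) hza.symm).2 (G.symm h4) with
      h5 | h5
    · exact hN c hc h5
    · exact hN d hd h5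
  e2b := by
    intro c hc d hd h0 h1 h2 h3 h4
    obtain ⟨m, hm, mc, md⟩ := h4.resolve_left id
    obtain ⟨z, hz, sz, zc, zd, hB⟩ := h.e2b c (hI hc) d (hI hd) h0 h1 h2 h3
      (Or.inr ⟨m, hI hm, mc, md⟩)
    refine ⟨z, ?_, sz, zc, zd, fun v hv => hB v (hI hv)⟩
    have hmz : m ≠ z := by
      rintro rfl
      exact zc mc
    have h5 : G.adj m z := (hB m (hI hm) (adj_ne mc) (adj_ne md) hmz).1 mc md
    by_contra hzI
    by_cases hza : z = a
    · subst hza
      exact hN m hm (G.symm h5)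
    · exact zc ((hM z hz hzI hza c hc).2 ((hM z hz hzI hza m hm).1 (G.symm h5)))
  e4 := by
    intro x hx s hs t ht y hy hP sx ss st sy
    rcases h.e4 x (hI hx) s (hI hs) t (hI ht) y (hI hy) hP sx ss st sy with
      ⟨k, hk, k1, k2, k3, k4, hPat, hcl⟩ | ⟨-, hE⟩
    · refine Or.inl ⟨k, ?_, k1, k2, k3, k4, hPat, fun p hp => hcl p (hI hp)⟩
      by_contra hkI
      by_cases hka : k = a
      · subst hka
        have := hN x hx
        have := hN s hs
        have := hN t ht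
        have := hN y hy
        unfold Pat at hPat
        tauto
      · have e1 := hM k hk hkI hka x hx
        have e2 := hM k hk hkI hka s hs
        have e3 := hM k hk hkI hka t ht
        have e4 := hM k hk hkI hka y hy
        unfold Pat at hPat
        tauto
    · exfalso
      have := hE a ha (fun e => haI (e ▸ hx)) (fun e => haI (e ▸ hs)) (fun e => haI (e ▸ ht))
        (fun e => haI (e ▸ hy))
      have := hN x hx
      have := hN s hs
      have := hN t ht
      have := hN y hy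
      tauto

end SG

open SG

namespace Sdo

variable {V : Type*} {D : Sdo V} {S : Finset V}

/-- the elements between `a` and `b` in the first order -/
noncomputable def bet (D : Sdo V) (S : Finset V) (a b : V) : Finset V :=
  S.filter fun v => (D.p a < D.p v ∧ D.p v < D.p b) ∨ (D.p b < D.p v ∧ D.p v < D.p a)

lemma mem_bet {a b v : V} : v ∈ D.bet S a b ↔ v ∈ S ∧
    ((D.p a < D.p v ∧ D.p v < D.p b) ∨ (D.p b < D.p v ∧ D.p v < D.p a)) := by
  simp [bet]

lemma bet_comm (a b : V) : D.bet S a b = D.bet S b a := by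
  ext v
  simp only [mem_bet]
  tauto

/-- both orders are injective -/
structure Inj (D : Sdo V) (S : Finset V) : Prop where
  p : ∀ a ∈ S, ∀ b ∈ S, D.p a = D.p b → a = b
  q : ∀ a ∈ S, ∀ b ∈ S, D.q a = D.q b → a = b

/-- `a`, `b` are neighbours in both orders and form a triangle or a digon -/
structure Leaf (D : Sdo V) (S : Finset V) (a b : V) : Prop where
  ha : a ∈ S
  hb : b ∈ S
  ne : a ≠ b
  np : ∀ v ∈ S, ¬ ((D.p a < D.p v ∧ D.p v < D.p b) ∨ (D.p b < D.p v ∧ D.p v < D.p a))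
  nq : ∀ v ∈ S, ¬ ((D.q a < D.q v ∧ D.q v < D.q b) ∨ (D.q b < D.q v ∧ D.q v < D.q a))
  sgn : (D.sg a ↔ D.G.adj a b) ∨ (D.sg b ↔ D.G.adj a b)

/-- twins which are not adjacent: the elements between them are the same in both orders -/
lemma par_bet (hD : D.Inj S) {a b : V} (ht : Tw D.G S a b) (hn : ¬ D.G.adj a b)
    (hab : D.p a < D.p b) : D.q a < D.q b ∧
    ∀ v ∈ S, (D.p a < D.p v ∧ D.p v < D.p b ↔ D.q a < D.q v ∧ D.q v < D.q b) := by
  have hqab : D.q a < D.q b := by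
    rcases lt_trichotomy (D.q a) (D.q b) with h1 | h1 | h1
    · exact h1
    · exact absurd (hD.q a ht.ha b ht.hb h1) ht.ne
    · exact absurd (Or.inl ⟨hab, h1⟩) hn
  refine ⟨hqab, fun v hv => ?_⟩
  by_cases hva : v = a
  · subst hva
    simp
  by_cases hvb : v = b
  · subst hvb
    simp
  have h1 := ht.tw v hv hva hvb
  have e1 : D.p v ≠ D.p a := fun e => hva (hD.p v hv a ht.ha e)
  have e2 : D.p v ≠ D.p b := fun e => hvb (hD.p v hv b ht.hb e)
  have e3 : D.q v ≠ D.q a := fun e => hva (hD.q v hv a ht.ha e)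
  have e4 : D.q v ≠ D.q b := fun e => hvb (hD.q v hv b ht.hb e)
  simp only [G] at h1
  constructor
  · rintro ⟨h2, h3⟩
    by_contra h4
    have : D.q v < D.q a ∨ D.q b < D.q v := by omega
    omega
  · rintro ⟨h2, h3⟩
    by_contra h4
    have : D.p v < D.p a ∨ D.p b < D.p v := by omega
    omega

lemma step_par (hD : D.Inj S) (h : Ax True D.G S) {a b : V} (ht : Tw D.G S a b)
    (hn : ¬ D.G.adj a b) (hab : D.p a < D.p b) (hne : (D.bet S a b).Nonempty) :
    ∃ c d, Tw D.G S c d ∧ (D.bet S c d).card < (D.bet S a b).card := by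
  obtain ⟨hqab, hpq⟩ := par_bet hD ht hn hab
  set I := D.bet S a b with hIdef
  have hI : ∀ v, v ∈ I ↔ v ∈ S ∧ D.p a < D.p v ∧ D.p v < D.p b := by
    intro v
    rw [hIdef, mem_bet]
    constructor
    · rintro ⟨h1, h2 | h2⟩
      · exact ⟨h1, h2⟩
      · omega
    · rintro ⟨h1, h2⟩
      exact ⟨h1, Or.inl h2⟩
  have hIS : I ⊆ S := fun v hv => ((hI v).1 hv).1
  have haI : a ∉ I := fun h' => by
    have := (hI a).1 h'
    omega
  have hbI : b ∉ I := fun h' => by
    have := (hI b).1 h'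
    omega
  have hNa : ∀ v ∈ I, ¬ D.G.adj a v := by
    intro v hv h1
    obtain ⟨h2, h3⟩ := (hI v).1 hv
    have := (hpq v h2).1 h3
    simp only [G] at h1
    omega
  have hNb : ∀ v ∈ I, ¬ D.G.adj b v := by
    intro v hv h1
    obtain ⟨h2, h3⟩ := (hI v).1 hv
    have := (hpq v h2).1 h3
    simp only [G] at h1
    omega
  have hout : ∀ w ∈ S, w ∉ I → w ≠ a → w ≠ b → ∀ v ∈ I, (D.G.adj w v ↔ D.G.adj w a) := by
    intro w hw hwI hwa hwb v hv
    obtain ⟨h2, h3⟩ := (hI v).1 hv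
    have h3q := (hpq v h2).1 h3
    have hwp : ¬ (D.p a < D.p w ∧ D.p w < D.p b) := fun h' => hwI ((hI w).2 ⟨hw, h'⟩)
    have hwq : ¬ (D.q a < D.q w ∧ D.q w < D.q b) := fun h' => hwp ((hpq w hw).2 h')
    have e1 : D.p w ≠ D.p a := fun e => hwa (hD.p w hw a ht.ha e)
    have e2 : D.p w ≠ D.p b := fun e => hwb (hD.p w hw b ht.hb e)
    have e3 : D.q w ≠ D.q a := fun e => hwa (hD.q w hw a ht.ha e)
    have e4 : D.q w ≠ D.q b := fun e => hwb (hD.q w hw b ht.hb e)
    simp only [G]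
    constructor <;> intro h' <;> omega
  have hMa : ∀ w ∈ S, w ∉ I → w ≠ a → ∀ v ∈ I, (D.G.adj w v ↔ D.G.adj w a) := by
    intro w hw hwI hwa v hv
    by_cases hwb : w = b
    · subst hwb
      exact ⟨fun h' => absurd h' (hNb v hv), fun h' => absurd (D.G.symm h') hn⟩
    · exact hout w hw hwI hwa hwb v hv
  have hMb : ∀ w ∈ S, w ∉ I → w ≠ b → ∀ v ∈ I, (D.G.adj w v ↔ D.G.adj w b) := by
    intro w hw hwI hwb v hv
    by_cases hwa : w = a
    · subst hwa
      exact ⟨fun h' => absurd h' (hNa v hv), fun h' => absurd h' hn⟩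
    · rw [hout w hw hwI hwa hwb v hv]
      exact ht.tw w hw hwa hwb
  have hAx := h.win hIS ht.ha haI hNa hMa
  rcases thmA_tw I.card D.G I le_rfl hAx hne with ⟨c, d, hcd⟩ | ⟨v, hv, hviso⟩
  · refine ⟨c, d, tw_module hIS ?_ hcd, ?_⟩
    · intro w hw hwI c hc d hd
      by_cases hwa : w = a
      · subst hwa
        exact ⟨fun h' => absurd h' (hNa c hc), fun h' => absurd h' (hNa d hd)⟩
      · exact (hMa w hw hwI hwa c hc).trans (hMa w hw hwI hwa d hd).symm
    · refine card_lt_card ⟨?_, fun h' => ?_⟩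
      · intro v hv
        obtain ⟨h1, h2⟩ := mem_bet.1 hv
        have h3 := ((hI c).1 hcd.ha).2
        have h4 := ((hI d).1 hcd.hb).2
        exact (hI v).2 ⟨h1, by omega⟩
      · have := (mem_bet.1 (h' hcd.ha)).2
        omega
  · obtain ⟨hvS, hv1⟩ := (hI v).1 hv
    have fin : ∀ c, c ∈ S → c ∉ I → (∀ w ∈ I, ¬ D.G.adj c w) →
        (∀ w ∈ S, w ∉ I → w ≠ c → ∀ v ∈ I, (D.G.adj w v ↔ D.G.adj w c)) → ¬ D.sg c →
        (D.p c ≤ D.p a ∧ D.p a ≤ D.p c ∨ D.p c ≤ D.p b ∧ D.p b ≤ D.p c) →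
        ∃ c d, Tw D.G S c d ∧ (D.bet S c d).card < I.card := by
      intro c hc hcI hN hM sc hpc
      refine ⟨c, v, ⟨hc, hvS, fun e => hcI (e ▸ hv), fun w hw wc wv => ?_, Or.inl ?_⟩, ?_⟩
      · by_cases hwI : w ∈ I
        · exact ⟨fun h' => absurd (D.G.symm h') (hN w hwI), fun h' => absurd h' (hviso w hwI)⟩
        · exact (hM w hw hwI wc v hv).symm
      · exact ⟨fun h' => absurd h' sc, fun h' => absurd h' (hN v hv)⟩
      · refine card_lt_card ⟨?_, fun h' => ?_⟩
        · intro w hw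
          obtain ⟨h1, h2⟩ := mem_bet.1 hw
          exact (hI w).2 ⟨h1, by omega⟩
        · have := (mem_bet.1 (h' hv)).2
          omega
    rcases ht.sgn with h1 | h1
    · exact fin a ht.ha haI hNa hMa (fun h' => hn (h1.1 h')) (Or.inl ⟨le_rfl, le_rfl⟩)
    · exact fin b ht.hb hbI hNb hMb (fun h' => hn (h1.1 h')) (Or.inr ⟨le_rfl, le_rfl⟩)

/-- the complement: the second order is reversed and the signs are changed -/
def co (D : Sdo V) : Sdo V where
  p := D.p
  q := fun v => - D.q v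
  sg := fun v => ¬ D.sg v

lemma Inj.co (hD : D.Inj S) : D.co.Inj S where
  p := hD.p
  q := fun a ha b hb h => hD.q a ha b hb (neg_injective h)

lemma agr_co (hD : D.Inj S) : Agr D.G.co D.co.G S := by
  refine ⟨fun a ha b hb => ?_, fun a _ => Iff.rfl⟩
  have e1 := hD.p a ha b hb
  have e2 := hD.q a ha b hb
  have h3 : a = b → D.p a = D.p b := fun e => by rw [e]
  simp only [SG.co, G, co]
  constructor
  · rintro ⟨h1, h2⟩
    have e3 : D.p a ≠ D.p b := fun e => h1 (e1 e)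
    have e4 : D.q a ≠ D.q b := fun e => h1 (e2 e)
    omega
  · intro h1
    refine ⟨fun e => ?_, fun h2 => ?_⟩
    · have := h3 e
      omega
    · omega

lemma Tw.co' {G : SG V} {a b : V} (h : Tw G S a b) : Tw G.co S a b := by
  refine ⟨h.ha, h.hb, h.ne, fun v hv h1 h2 => ?_, ?_⟩
  · have := h.tw v hv h1 h2
    simp only [SG.co]
    tauto
  · have h1 := h.sgn
    have h2 := h.ne
    simp only [SG.co]
    tauto

lemma step (hD : D.Inj S) (h : Ax True D.G S) {a b : V} (ht : Tw D.G S a b)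
    (hne : (D.bet S a b).Nonempty) :
    ∃ c d, Tw D.G S c d ∧ (D.bet S c d).card < (D.bet S a b).card := by
  have hpab : D.p a ≠ D.p b := fun e => ht.ne (hD.p a ht.ha b ht.hb e)
  by_cases hn : D.G.adj a b
  · have key : ∀ a b, Tw D.G S a b → D.G.adj a b → D.p a < D.p b → (D.bet S a b).Nonempty →
        ∃ c d, Tw D.G S c d ∧ (D.bet S c d).card < (D.bet S a b).card := by
      intro a b ht hn hab hne
      have hA := (agr_co hD)
      have ht' := hA.tw (Tw.co' ht)
      have hn' : ¬ D.co.G.adj a b := fun h' => ((hA.1 a ht.ha b ht.hb).2 h').2 hn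
      obtain ⟨c, d, hcd, hlt⟩ := step_par hD.co (hA.ax h.co) ht' hn' hab hne
      exact ⟨c, d, Tw.of_co (hA.symm.tw hcd), hlt⟩
    rcases lt_or_gt_of_ne hpab with h1 | h1
    · exact key a b ht hn h1 hne
    · rw [bet_comm] at hne ⊢
      exact key b a ht.symm (D.G.symm hn) h1 hne
  · rcases lt_or_gt_of_ne hpab with h1 | h1
    · exact step_par hD h ht hn h1 hne
    · rw [bet_comm] at hne ⊢
      exact step_par hD h ht.symm (fun h' => hn (D.G.symm h')) h1 hne

lemma Inj.par_empty (hD : D.Inj S) {a b : V} (ht : Tw D.G S a b) (hn : ¬ D.G.adj a b)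
    (hab : D.p a < D.p b) (hne : D.bet S a b = ∅) : D.Leaf S a b := by
  obtain ⟨hqab, hpq⟩ := par_bet hD ht hn hab
  have h0 : ∀ v ∈ S, ¬ ((D.p a < D.p v ∧ D.p v < D.p b) ∨ (D.p b < D.p v ∧ D.p v < D.p a)) :=
    fun v hv h' => by
      have : v ∈ D.bet S a b := mem_bet.2 ⟨hv, h'⟩
      rw [hne] at this
      simp at this
  refine ⟨ht.ha, ht.hb, ht.ne, h0, fun v hv h' => ?_, ht.sgn⟩
  rcases h' with h1 | h1
  · exact h0 v hv (Or.inl ((hpq v hv).2 h1))
  · omega

lemma Leaf.symm {a b : V} (h : D.Leaf S a b) : D.Leaf S b a where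
  ha := h.hb
  hb := h.ha
  ne := h.ne.symm
  np := fun v hv h' => h.np v hv h'.symm
  nq := fun v hv h' => h.nq v hv h'.symm
  sgn := by
    have e : D.G.adj b a ↔ D.G.adj a b := ⟨D.G.symm, D.G.symm⟩
    rw [e]
    exact h.sgn.symm

/-- a closest pair of twins is a leaf -/
theorem leaf_of_tw (hD : D.Inj S) (h : Ax True D.G S) (ht : ∃ a b, Tw D.G S a b) :
    ∃ a b, D.Leaf S a b := by
  have key : ∀ n : ℕ, ∀ a b, Tw D.G S a b → (D.bet S a b).card ≤ n → ∃ a b, D.Leaf S a b := by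
    intro n
    induction n with
    | zero =>
      intro a b ht hc
      have hne : D.bet S a b = ∅ := by
        rw [← card_eq_zero]
        omega
      have hpab : D.p a ≠ D.p b := fun e => ht.ne (hD.p a ht.ha b ht.hb e)
      by_cases hn : D.G.adj a b
      · have key : ∀ a b, Tw D.G S a b → D.G.adj a b → D.p a < D.p b → D.bet S a b = ∅ →
            D.Leaf S a b := by
          intro a b ht hn hab hne
          have hA := (agr_co hD)
          have ht' := hA.tw (Tw.co' ht)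
          have hn' : ¬ D.co.G.adj a b := fun h' => ((hA.1 a ht.ha b ht.hb).2 h').2 hn
          have hL := hD.co.par_empty ht' hn' hab hne
          refine ⟨ht.ha, ht.hb, ht.ne, hL.np, fun v hv h' => hL.nq v hv ?_, ht.sgn⟩
          simp only [co]
          omega
        rcases lt_or_gt_of_ne hpab with h1 | h1
        · exact ⟨a, b, key a b ht hn h1 hne⟩
        · rw [bet_comm] at hne
          exact ⟨b, a, key b a ht.symm (D.G.symm hn) h1 hne⟩
      · rcases lt_or_gt_of_ne hpab with h1 | h1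
        · exact ⟨a, b, hD.par_empty ht hn h1 hne⟩
        · rw [bet_comm] at hne
          exact ⟨b, a, hD.par_empty ht.symm (fun h' => hn (D.G.symm h')) h1 hne⟩
    | succ n ih =>
      intro a b ht hc
      rcases (D.bet S a b).eq_empty_or_nonempty with h0 | h0
      · exact ih a b ht (by rw [h0]; simp)
      · obtain ⟨c, d, hcd, hlt⟩ := step hD h ht h0
        exact ih c d hcd (by omega)
  obtain ⟨a, b, hab⟩ := ht
  exact key _ a b hab le_rfl

/-- Theorem B: a beta system has a leaf or is a path with four vertices -/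
theorem leaf_or_P4 (hD : D.Inj S) (h : Ax True D.G S) (h2 : 2 ≤ S.card) :
    (∃ a b, D.Leaf S a b) ∨ ∃ x s t y, (∀ v, v ∈ S ↔ v = x ∨ v = s ∨ v = t ∨ v = y) ∧
      D.G.P4 x s t y ∧ ¬ D.sg x ∧ D.sg s ∧ D.sg t ∧ ¬ D.sg y := by
  rcases thmB h h2 with h1 | h1
  · exact Or.inl (leaf_of_tw hD h h1)
  · exact Or.inr h1

end Sdo

end H48CP
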