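import Pool.Agent.H60.CPL.Circ
import Pool.Agent.H60.CPL.Leaf
import Pool.Agent.H60.CPL.Cut

/-!
Pairs of circuits all of whose cuts at marked gaps are critical (note 3635 (5) on MP_472c72).
-/

namespace H48CP

open Finset SG
open scoped Classical

variable {V : Type*}

section rest

variable {G : SG V} {S : Finset V} {l : V}

lemma rest_iso (h : Ax True G S) (hl : l ∈ S) (sl : G.sg l) (hiso : ∀ c ∈ S, ¬ G.adj c l)
    (h3 : 3 ≤ S.card) : Ax True G (S.erase l) ∧ ∃ a b, Tw G (S.erase l) a b := by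
  have hY : ∀ v, v ∈ S.erase l ↔ v ≠ l ∧ v ∈ S := fun v => mem_erase
  have hcard : 2 ≤ (S.erase l).card := by
    rw [card_erase_of_mem hl]
    omega
  have hne : ∀ z c, c ∈ S → G.adj z c → z ≠ l := by
    rintro z c hc hzc rfl
    exact hiso c hc (G.symm hzc)
  have hT : Ax True G (S.erase l) := by
    refine ⟨?_, ?_, ?_⟩
    · intro a ha b hb hab sa sb
      have ha' := ((hY a).1 ha).2
      have hb' := ((hY b).1 hb).2
      obtain ⟨z, hz, sz, za, zb, hB⟩ := h.e2a a ha' b hb' hab sa sb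
      exact ⟨z, (hY z).2 ⟨hne z a ha' za, hz⟩, sz, za, zb, fun v hv => hB v ((hY v).1 hv).2⟩
    · intro a ha b hb hne' hab sa sb _
      have ha' := ((hY a).1 ha).2
      have hb' := ((hY b).1 hb).2
      obtain ⟨z, hz, sz, za, zb, hB⟩ := h.e2b a ha' b hb' hne' hab sa sb (Or.inl trivial)
      refine ⟨z, (hY z).2 ⟨?_, hz⟩, sz, za, zb, fun v hv => hB v ((hY v).1 hv).2⟩
      rintro rfl
      exact sz sl
    · intro x hx s hs t ht y hy hP sx ss st sy
      have hx' := ((hY x).1 hx).2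
      have hs' := ((hY s).1 hs).2
      have ht' := ((hY t).1 ht).2
      have hy' := ((hY y).1 hy).2
      rcases h.e4 x hx' s hs' t ht' y hy' hP sx ss st sy with
        ⟨k, hk, k1, k2, k3, k4, hPat, hcl⟩ | ⟨-, hE⟩
      · refine Or.inl ⟨k, (hY k).2 ⟨?_, hk⟩, k1, k2, k3, k4, hPat,
          fun p hp => hcl p ((hY p).1 hp).2⟩
        unfold Pat at hPat
        rcases hPat with h1 | h1 | h1 | h1
        · exact hne k x hx' h1.1
        · exact hne k s hs' h1.2.1
        · exact hne k x hx' h1.1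
        · exact hne k t ht' h1.2.2.1
      · exact Or.inr ⟨trivial, fun v hv => hE v ((hY v).1 hv).2⟩
  refine ⟨hT, ?_⟩
  obtain ⟨b, hb⟩ : (S.erase l).Nonempty := card_pos.1 (by omega)
  have hb' := (hY b).1 hb
  have hnr : ¬ G.Rch S l b := by
    intro hr
    rcases Relation.ReflTransGen.cases_head hr with h1 | ⟨z, hz, -⟩
    · exact hb'.1 h1.symm
    · exact hiso z hz.1 (G.symm hz.2)
  have hF : Ax False G S := h.of_disc hl hb'.2 hnr
  have hF' : Ax False G (S.erase l) := by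
    refine hF.closed (erase_subset _ _) ?_
    intro a ha b hb hab
    refine (hY b).2 ⟨?_, hb⟩
    rintro rfl
    exact hiso a ((hY a).1 ha).2 hab
  exact exists_tw hT hF' hcard

lemma rest (h : Ax True G S) (hl : l ∈ S)
    (hiso : (G.sg l ∧ ∀ c ∈ S, ¬ G.adj c l) ∨ (¬ G.sg l ∧ ∀ c ∈ S, c ≠ l → G.adj c l))
    (h3 : 3 ≤ S.card) : Ax True G (S.erase l) ∧ ∃ a b, Tw G (S.erase l) a b := by
  rcases hiso with ⟨sl, h1⟩ | ⟨sl, h1⟩
  · exact rest_iso h hl sl h1 h3
  · obtain ⟨h4, a, b, h5⟩ := rest_iso h.co hl sl (fun c hc h' => h'.2 (h1 c hc h'.1)) h3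
    refine ⟨?_, a, b, h5.of_co⟩
    have hA : Agr G.co.co G (S.erase l) := by
      refine ⟨fun a _ b _ => ?_, fun a _ => not_not⟩
      simp only [SG.co]
      constructor
      · rintro ⟨h6, h7⟩
        by_contra h8
        exact h7 ⟨h6, h8⟩
      · intro h6
        exact ⟨adj_ne h6, fun h7 => h7.2 h6⟩
    exact hA.ax h4.co

end rest

/-- the two circuits cut before `g` and before `h` -/
def cut (N M : ℤ) (P Q : V → ℤ) (sg : V → Prop) (g h : ℤ) : Sdo V :=
  ⟨fun v => rot N g (P v), fun v => rot M h (Q v), sg⟩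

/-- two circuits with signs and marks; every cut at two marks is critical, every leaf is marked -/
structure Base (S : Finset V) (N M : ℤ) (P Q : V → ℤ) (sg : V → Prop) (M1 M3 : ℤ → Prop) :
    Prop where
  cp : Cir S N P
  cq : Cir S M Q
  m1 : Mk S N P M1
  m3 : Mk S M Q M3
  ax : ∀ g h, M1 g → M3 h → Ax True (cut N M P Q sg g h).G S
  lf : ∀ g h, M1 g → M3 h → ∀ a b, (cut N M P Q sg g h).Leaf S a b →
    (∃ g', M1 g' ∧ Bet N g (P a) (P b) g') ∨ ∃ h', M3 h' ∧ Bet M h (Q a) (Q b) h'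

section

variable {S : Finset V} {N M : ℤ} {P Q : V → ℤ} {sg : V → Prop} {M1 M3 : ℤ → Prop}

lemma cut_swap {g h : ℤ} {a b : V} :
    (cut M N Q P sg h g).G.adj a b ↔ (cut N M P Q sg g h).G.adj a b := by
  simp only [cut, Sdo.G]
  constructor <;> rintro (h1 | h1)
  · exact Or.inr ⟨h1.2, h1.1⟩
  · exact Or.inl ⟨h1.2, h1.1⟩
  · exact Or.inr ⟨h1.2, h1.1⟩
  · exact Or.inl ⟨h1.2, h1.1⟩

lemma leaf_swap {g h : ℤ} {a b : V} (hL : (cut N M P Q sg g h).Leaf S a b) :
    (cut M N Q P sg h g).Leaf S a b := by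
  refine ⟨hL.ha, hL.hb, hL.ne, hL.nq, hL.np, ?_⟩
  rw [cut_swap]
  exact hL.sgn

lemma Base.swap (B : Base S N M P Q sg M1 M3) : Base S M N Q P sg M3 M1 where
  cp := B.cq
  cq := B.cp
  m1 := B.m3
  m3 := B.m1
  ax := by
    intro g h hg hh
    have hA : Agr (cut N M P Q sg h g).G (cut M N Q P sg g h).G S :=
      ⟨fun a _ b _ => cut_swap.symm, fun a _ => Iff.rfl⟩
    exact hA.ax (B.ax h g hh hg)
  lf := by
    intro g h hg hh a b hL
    exact (B.lf h g hh hg a b (leaf_swap hL)).symm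

lemma Base.inj (B : Base S N M P Q sg M1 M3) {g h : ℤ} (hg : M1 g) (hh : M3 h) :
    (cut N M P Q sg g h).Inj S where
  p := fun a ha b hb e => B.cp.inj a ha b hb (rot_inj (B.m1.rg g hg) (B.cp.rg a ha) (B.cp.rg b hb) e)
  q := fun a ha b hb e => B.cq.inj a ha b hb (rot_inj (B.m3.rg h hh) (B.cq.rg a ha) (B.cq.rg b hb) e)

/-- the position of the end of a leaf -/
def Endp (S : Finset V) (N M : ℤ) (P Q : V → ℤ) (sg : V → Prop) (g h : ℤ) (l : V) : Prop :=
  ((∀ c ∈ S, c ≠ l → rot N g (P l) < rot N g (P c)) ∧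
    ((¬ sg l ∧ ∀ c ∈ S, c ≠ l → rot M h (Q l) < rot M h (Q c)) ∨
      (sg l ∧ ∀ c ∈ S, c ≠ l → rot M h (Q c) < rot M h (Q l)))) ∨
  ((∀ c ∈ S, c ≠ l → rot N g (P c) < rot N g (P l)) ∧
    ((¬ sg l ∧ ∀ c ∈ S, c ≠ l → rot M h (Q c) < rot M h (Q l)) ∨
      (sg l ∧ ∀ c ∈ S, c ≠ l → rot M h (Q l) < rot M h (Q c))))

lemma Endp.ext {g h : ℤ} {l : V} (hE : Endp S N M P Q sg g h l) : Ext S N P g l := by
  rcases hE with h1 | h1
  · exact Or.inl h1.1
  · exact Or.inr h1.1

lemma broken_leaf_aux (B : Base S N M P Q sg M1 M3) {g h g' h' : ℤ} {a b : V} (hg : M1 g)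
    (hh : M3 h) (hg' : M1 g') (hh' : M3 h') (hL : (cut N M P Q sg g h).Leaf S a b)
    (hb1 : Bet M h (Q a) (Q b) h') (hn : ¬ Bet N g (P a) (P b) g')
    (hab : rot M h (Q a) < rot M h (Q b)) :
    (sg a ↔ ¬ sg b) ∧ ∀ l, (l = a ∨ l = b) → (sg l ↔ ¬ (cut N M P Q sg g h).G.adj a b) →
      Endp S N M P Q sg g' h' l := by
  have ha := hL.ha
  have hb := hL.hb
  have hne := hL.ne
  have rg := B.m1.rg g hg
  have rg' := B.m1.rg g' hg'
  have rh := B.m3.rg h hh
  have rh' := B.m3.rg h' hh'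
  have hQ : ∀ c ∈ S, (c ≠ b → rot M h' (Q b) < rot M h' (Q c)) ∧
      (c ≠ a → rot M h' (Q c) < rot M h' (Q a)) := by
    intro c hc
    have := broken rh rh' (B.cq.rg a ha) (B.cq.rg b hb) (B.cq.rg c hc) hb1 hab (hL.nq c hc)
    exact ⟨fun h1 => this.1 fun e => h1 (B.cq.inj c hc b hb e),
      fun h1 => this.2 fun e => h1 (B.cq.inj c hc a ha e)⟩
  have hPab : rot N g' (P a) < rot N g' (P b) ↔ rot N g (P a) < rot N g (P b) :=
    unbroken rg rg' (B.cp.rg a ha) (B.cp.rg b hb) hn (B.m1.ne g' hg' a ha) (B.m1.ne g' hg' b hb)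
  have hPc : ∀ c ∈ S, ¬ Bet N g' (P a) (P b) (P c) := by
    intro c hc
    rw [unbroken_bet rg rg' (B.cp.rg a ha) (B.cp.rg b hb) (B.cp.rg c hc) hn
      (B.m1.ne g' hg' a ha) (B.m1.ne g' hg' b hb)]
    exact hL.np c hc
  have hPne : ∀ c ∈ S, ∀ d ∈ S, c ≠ d → rot N g' (P c) ≠ rot N g' (P d) :=
    fun c hc d hd h1 e => h1 (B.cp.inj c hc d hd (rot_inj rg' (B.cp.rg c hc) (B.cp.rg d hd) e))
  have hPab0 : rot N g (P a) ≠ rot N g (P b) :=
    fun e => hne (B.cp.inj a ha b hb (rot_inj rg (B.cp.rg a ha) (B.cp.rg b hb) e))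
  have hPab' := hPne a ha b hb hne
  have hQab := (hQ a ha).1 hne
  -- adjacencies
  have adj_ab : (cut N M P Q sg g' h').G.adj a b ↔ rot N g' (P a) < rot N g' (P b) := by
    simp only [cut, Sdo.G]
    omega
  have adj_ab0 : (cut N M P Q sg g h).G.adj a b ↔ ¬ rot N g (P a) < rot N g (P b) := by
    simp only [cut, Sdo.G]
    omega
  have adj_ca : ∀ c ∈ S, c ≠ a → ((cut N M P Q sg g' h').G.adj c a ↔
      rot N g' (P a) < rot N g' (P c)) := by
    intro c hc hca
    have h1 := (hQ c hc).2 hca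
    have h2 := hPne c hc a ha hca
    simp only [cut, Sdo.G]
    omega
  have adj_cb : ∀ c ∈ S, c ≠ b → ((cut N M P Q sg g' h').G.adj c b ↔
      rot N g' (P c) < rot N g' (P b)) := by
    intro c hc hcb
    have h1 := (hQ c hc).1 hcb
    have h2 := hPne c hc b hb hcb
    simp only [cut, Sdo.G]
    omega
  have hx : ∀ c ∈ S, c ≠ a → c ≠ b → ((cut N M P Q sg g' h').G.adj c a ↔
      ¬ (cut N M P Q sg g' h').G.adj c b) := by
    intro c hc hca hcb
    rw [adj_ca c hc hca, adj_cb c hc hcb]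
    have h1 := hPc c hc
    have h2 := hPne c hc a ha hca
    have h3 := hPne c hc b hb hcb
    unfold Bet at h1
    omega
  have hAx := B.ax g' h' hg' hh'
  have hsgn := hL.sgn
  have hsg : (cut N M P Q sg g h).sg = sg := rfl
  rw [hsg, adj_ab0] at hsgn
  rw [adj_ab0]
  by_cases hadj : (cut N M P Q sg g' h').G.adj a b
  · have h0 : rot N g (P a) < rot N g (P b) := by
      rw [← hPab, ← adj_ab]
      exact hadj
    rcases claim4 hAx ha hb hadj hx (fun h' => by
      have e1 : sg a := h'.1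
      have e2 : sg b := h'.2
      tauto) with ⟨h1, h2, h3⟩ | ⟨h1, h2, h3⟩
    · have h1' : ¬ sg a := h1
      have h2' : sg b := h2
      refine ⟨⟨fun h => absurd h h1', fun h => absurd h2' h⟩, fun l hl hs => ?_⟩
      have hlb : l = b := by
        rcases hl with hl | hl
        · rw [hl] at hs
          tauto
        · exact hl
      rw [hlb]
      refine Or.inr ⟨fun c hc hcb => (adj_cb c hc hcb).1 (h3 c hc hcb), Or.inr ⟨h2', ?_⟩⟩
      exact fun c hc hcb => (hQ c hc).1 hcb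
    · have h1' : ¬ sg b := h1
      have h2' : sg a := h2
      refine ⟨⟨fun _ => h1', fun _ => h2'⟩, fun l hl hs => ?_⟩
      have hla : l = a := by
        rcases hl with hl | hl
        · exact hl
        · rw [hl] at hs
          tauto
      rw [hla]
      refine Or.inl ⟨fun c hc hca => (adj_ca c hc hca).1 (h3 c hc hca), Or.inr ⟨h2', ?_⟩⟩
      exact fun c hc hca => (hQ c hc).2 hca
  · have h0 : ¬ rot N g (P a) < rot N g (P b) := by
      rw [← hPab, ← adj_ab]
      exact hadj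
    rcases claim4' hAx ha hb hne hadj hx (fun h' => by
      have e1 : ¬ sg a := h'.1
      have e2 : ¬ sg b := h'.2
      tauto) with ⟨h1, h2, h3⟩ | ⟨h1, h2, h3⟩
    · have h1' : sg a := h1
      have h2' : ¬ sg b := h2
      refine ⟨⟨fun _ => h2', fun _ => h1'⟩, fun l hl hs => ?_⟩
      have hlb : l = b := by
        rcases hl with hl | hl
        · rw [hl] at hs
          tauto
        · exact hl
      rw [hlb]
      refine Or.inl ⟨fun c hc hcb => ?_, Or.inl ⟨h2', fun c hc hcb => (hQ c hc).1 hcb⟩⟩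
      have e1 := h3 c hc
      rw [adj_cb c hc hcb] at e1
      have e2 := hPne c hc b hb hcb
      omega
    · have h1' : sg b := h1
      have h2' : ¬ sg a := h2
      refine ⟨⟨fun h => absurd h h2', fun h => absurd h1' h⟩, fun l hl hs => ?_⟩
      have hla : l = a := by
        rcases hl with hl | hl
        · exact hl
        · rw [hl] at hs
          tauto
      rw [hla]
      refine Or.inr ⟨fun c hc hca => ?_, Or.inl ⟨h2', fun c hc hca => (hQ c hc).2 hca⟩⟩
      have e1 := h3 c hc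
      rw [adj_ca c hc hca] at e1
      have e2 := hPne c hc a ha hca
      omega

/-- a leaf broken by a cut of the second circuit -/
lemma broken_leaf (B : Base S N M P Q sg M1 M3) {g h g' h' : ℤ} {a b : V} (hg : M1 g)
    (hh : M3 h) (hg' : M1 g') (hh' : M3 h') (hL : (cut N M P Q sg g h).Leaf S a b)
    (hb1 : Bet M h (Q a) (Q b) h') (hn : ¬ Bet N g (P a) (P b) g') :
    (sg a ↔ ¬ sg b) ∧ ∀ l, (l = a ∨ l = b) → (sg l ↔ ¬ (cut N M P Q sg g h).G.adj a b) →
      Endp S N M P Q sg g' h' l := by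
  have hne : rot M h (Q a) ≠ rot M h (Q b) := fun e =>
    hL.ne (B.cq.inj a hL.ha b hL.hb (rot_inj (B.m3.rg h hh) (B.cq.rg a hL.ha) (B.cq.rg b hL.hb) e))
  rcases lt_or_gt_of_ne hne with h1 | h1
  · exact broken_leaf_aux B hg hh hg' hh' hL hb1 hn h1
  · have h2 := broken_leaf_aux B hg hh hg' hh' hL.symm hb1.symm (fun h' => hn h'.symm) h1
    refine ⟨by tauto, fun l hl hs => h2.2 l hl.symm ?_⟩
    rw [hs]
    exact not_congr ⟨fun h => SG.symm _ h, fun h => SG.symm _ h⟩

/-- the separating marks kill a path with four vertices -/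
lemma exists_leaf (B : Base S N M P Q sg M1 M3) {g : ℤ} (hg : M1 g) (s3 : Sep S M Q M3) :
    ∃ h, M3 h ∧ ∃ a b, (cut N M P Q sg g h).Leaf S a b := by
  obtain ⟨h1, h2, m1, m2, v, hv, v', hv', hs1, hs2⟩ := s3
  have r1 := B.m3.rg h1 m1
  have r2 := B.m3.rg h2 m2
  have hvv : v ≠ v' := by
    rintro rfl
    omega
  have hcard : 2 ≤ S.card := one_lt_card.2 ⟨v, hv, v', hv', hvv⟩
  rcases Sdo.leaf_or_P4 (B.inj hg m1) (B.ax g h1 hg m1) hcard with ⟨a, b, hL⟩ | hP1
  · exact ⟨h1, m1, a, b, hL⟩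
  rcases Sdo.leaf_or_P4 (B.inj hg m2) (B.ax g h2 hg m2) hcard with ⟨a, b, hL⟩ | hP2
  · exact ⟨h2, m2, a, b, hL⟩
  exfalso
  obtain ⟨x, s, t, y, hS, hP, sx, ss, st, sy⟩ := hP1
  obtain ⟨x', s', t', y', hS', hP', sx', ss', st', sy'⟩ := hP2
  have hx : x ∈ S := (hS x).2 (Or.inl rfl)
  have hs : s ∈ S := (hS s).2 (Or.inr (Or.inl rfl))
  have ht : t ∈ S := (hS t).2 (Or.inr (Or.inr (Or.inl rfl)))
  have hy : y ∈ S := (hS y).2 (Or.inr (Or.inr (Or.inr rfl)))
  have hx' := (hS x').1 ((hS' x').2 (Or.inl rfl))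
  have hs' := (hS s').1 ((hS' s').2 (Or.inr (Or.inl rfl)))
  have ht' := (hS t').1 ((hS' t').2 (Or.inr (Or.inr (Or.inl rfl))))
  have hy' := (hS y').1 ((hS' y').2 (Or.inr (Or.inr (Or.inr rfl))))
  have e1 : ∀ z, ¬ sg z → z = x ∨ z = s ∨ z = t ∨ z = y → z = x ∨ z = y := by
    intro z hz h
    rcases h with h | h | h | h
    · exact Or.inl h
    · exact absurd (h ▸ ss) hz
    · exact absurd (h ▸ st) hz
    · exact Or.inr h
  have e2 : ∀ z, sg z → z = x ∨ z = s ∨ z = t ∨ z = y → z = s ∨ z = t := by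
    intro z hz h
    rcases h with h | h | h | h
    · exact absurd (h ▸ hz) sx
    · exact Or.inl h
    · exact Or.inr h
    · exact absurd (h ▸ hz) sy
  have fx := e1 x' sx' hx'
  have fy := e1 y' sy' hy'
  have fs := e2 s' ss' hs'
  have ft := e2 t' st' ht'
  have nst' : s' ≠ t' := adj_ne hP'.2.1
  have nxy' : x' ≠ y' := hP'.ne2
  -- the second graph
  have a2 : (cut N M P Q sg g h2).G.adj s t := by
    have h := hP'.2.1
    rcases fs with rfl | rfl <;> rcases ft with rfl | rfl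
    · exact absurd rfl nst'
    · exact h
    · exact SG.symm _ h
    · exact absurd rfl nst'
  have b2 : ¬ (cut N M P Q sg g h2).G.adj x y := by
    have h := hP'.2.2.2.2.1
    rcases fx with rfl | rfl <;> rcases fy with rfl | rfl
    · exact absurd rfl nxy'
    · exact h
    · exact fun h' => h (SG.symm _ h')
    · exact absurd rfl nxy'
  obtain ⟨p1, p2, p3, p4, p5, p6⟩ := hP
  have nxs := adj_ne p1
  have nst := adj_ne p2
  have nty := adj_ne p3
  have nxt : x ≠ t := fun e => p6 (by rw [← e] at p3; exact absurd p3 p5)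
  have nxy : x ≠ y := by
    rintro rfl
    exact p4 (SG.symm _ p3)
  have nsy : s ≠ y := by
    rintro rfl
    exact p5 p1
  have rP : ∀ c ∈ S, ∀ d ∈ S, c ≠ d → rot N g (P c) ≠ rot N g (P d) := fun c hc d hd h e =>
    h (B.cp.inj c hc d hd (rot_inj (B.m1.rg g hg) (B.cp.rg c hc) (B.cp.rg d hd) e))
  have rQ : ∀ c ∈ S, ∀ d ∈ S, c ≠ d → rot M h1 (Q c) ≠ rot M h1 (Q d) := fun c hc d hd h e =>
    h (B.cq.inj c hc d hd (rot_inj r1 (B.cq.rg c hc) (B.cq.rg d hd) e))
  have nP1 := rP x hx s hs nxs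
  have nP2 := rP s hs t ht nst
  have nP3 := rP t ht y hy nty
  have nP4 := rP x hx t ht nxt
  have nP5 := rP x hx y hy nxy
  have nP6 := rP s hs y hy nsy
  have nQ1 := rQ x hx s hs nxs
  have nQ2 := rQ s hs t ht nst
  have nQ3 := rQ t ht y hy nty
  have nQ4 := rQ x hx t ht nxt
  have nQ5 := rQ x hx y hy nxy
  have nQ6 := rQ s hs y hy nsy
  simp only [cut, Sdo.G] at a2 b2 p1 p2 p3 p4 p5 p6
  rw [rot_lt r1 r2 (B.cq.rg s hs) (B.cq.rg t ht), rot_lt r1 r2 (B.cq.rg t ht) (B.cq.rg s hs)] at a2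
  rw [rot_lt r1 r2 (B.cq.rg x hx) (B.cq.rg y hy), rot_lt r1 r2 (B.cq.rg y hy) (B.cq.rg x hx)] at b2
  have hvc := (hS v).1 hv
  have hvc' := (hS v').1 hv'
  have kst : rot M h1 (Q s) < rot M h1 h2 ↔ rot M h1 (Q t) < rot M h1 h2 := by
    clear b2 p1 p3 p4 p5 p6 hs1 hs2
    generalize rot N g (P s) = ps at *
    generalize rot N g (P t) = pt at *
    generalize rot M h1 (Q s) = qs at *
    generalize rot M h1 (Q t) = qt at *
    generalize rot M h1 h2 = z at *
    omega
  have kxy : rot M h1 (Q x) < rot M h1 h2 ↔ rot M h1 (Q y) < rot M h1 h2 := by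
    clear a2 p1 p2 p3 p4 p6 hs1 hs2
    generalize rot N g (P x) = px at *
    generalize rot N g (P y) = py at *
    generalize rot M h1 (Q x) = qx at *
    generalize rot M h1 (Q y) = qy at *
    generalize rot M h1 h2 = z at *
    omega
  have ksep : ¬ (rot M h1 (Q s) < rot M h1 h2 ↔ rot M h1 (Q x) < rot M h1 h2) := by
    intro hk
    have hall : ∀ z, z = x ∨ z = s ∨ z = t ∨ z = y →
        (rot M h1 (Q z) < rot M h1 h2 ↔ rot M h1 (Q x) < rot M h1 h2) := by
      rintro z (rfl | rfl | rfl | rfl)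
      · exact Iff.rfl
      · exact hk
      · exact kst.symm.trans hk
      · exact kxy.symm
    have k1 := hall v hvc
    have k2 := hall v' hvc'
    omega
  clear a2 b2 hs1 hs2
  generalize rot N g (P x) = px at *
  generalize rot N g (P s) = ps at *
  generalize rot N g (P t) = pt at *
  generalize rot N g (P y) = py at *
  generalize rot M h1 (Q x) = qx at *
  generalize rot M h1 (Q s) = qs at *
  generalize rot M h1 (Q t) = qt at *
  generalize rot M h1 (Q y) = qy at *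
  generalize rot M h1 h2 = z at *
  by_cases hz : qs < z
  · have c1 := kst.1 hz
    have c2 : ¬ qx < z := fun h => ksep ⟨fun _ => h, fun _ => hz⟩
    have c3 : ¬ qy < z := fun h => c2 (kxy.2 h)
    have d1 : px < ps := by omega
    have d2 : py < pt := by omega
    have d3 : pt < px := by omega
    have d4 : ps < py := by omega
    omega
  · have c1 : ¬ qt < z := fun h => hz (kst.2 h)
    have c2 : qx < z := by
      by_contra h
      exact ksep ⟨fun h' => absurd h' hz, fun h' => absurd h' h⟩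
    have c3 := kxy.1 c2
    have d1 : ps < px := by omega
    have d2 : pt < py := by omega
    have d3 : px < pt := by omega
    have d4 : py < ps := by omega
    omega

lemma not_bet_self {N g x y : ℤ} (hg : Rg N g) (hx : Rg N x) (hy : Rg N y) : ¬ Bet N g x y g := by
  unfold Bet rot
  unfold Rg at *
  split_ifs <;> omega

/-- the element of a broken leaf -/
lemma exists_l {a b : V} {A : Prop} (h : sg a ↔ ¬ sg b) : ∃ l, (l = a ∨ l = b) ∧ (sg l ↔ ¬ A) := by
  by_cases hA : sg a ↔ ¬ A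
  · exact ⟨a, Or.inl rfl, hA⟩
  · exact ⟨b, Or.inr rfl, by tauto⟩

/-- one mark on the first circuit -/
theorem oneSided (B : Base S N M P Q sg M1 M3) {g : ℤ} (hg : M1 g) (hu : ∀ g', M1 g' → g' = g)
    (s3 : Sep S M Q M3) : ∃ l ∈ S, ∃ h, M3 h ∧ Endp S N M P Q sg g h l := by
  obtain ⟨h, hh, a, b, hL⟩ := exists_leaf B hg s3
  have hself := not_bet_self (B.m1.rg g hg) (B.cp.rg a hL.ha) (B.cp.rg b hL.hb)
  rcases B.lf g h hg hh a b hL with ⟨g', hg', h1⟩ | ⟨h', hh', h1⟩
  · rw [hu g' hg'] at h1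
    exact absurd h1 hself
  · obtain ⟨h2, h3⟩ := broken_leaf B hg hh hg hh' hL h1 hself
    obtain ⟨l, hl, hs⟩ := exists_l (sg := sg) (A := (cut N M P Q sg g h).G.adj a b) h2
    refine ⟨l, ?_, h', hh', h3 l hl hs⟩
    rcases hl with rfl | rfl
    · exact hL.ha
    · exact hL.hb

lemma two_aux (B : Base S N M P Q sg M1 M3) (s1 : Sep S N P M1) (s3 : Sep S M Q M3)
    {g h h' : ℤ} {a b : V} (hg : M1 g) (hh : M3 h) (hh' : M3 h')
    (hL : (cut N M P Q sg g h).Leaf S a b) (hb1 : Bet M h (Q a) (Q b) h') : S.card ≤ 2 := by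
  have ha := hL.ha
  have hb := hL.hb
  have rg := B.m1.rg g hg
  have rh := B.m3.rg h hh
  have hself := not_bet_self rg (B.cp.rg a ha) (B.cp.rg b hb)
  obtain ⟨hsab, -⟩ := broken_leaf B hg hh hg hh' hL hb1 hself
  obtain ⟨l, hl, hs⟩ := exists_l (sg := sg) (A := (cut N M P Q sg g h).G.adj a b) hsab
  have hlS : l ∈ S := by
    rcases hl with rfl | rfl
    · exact ha
    · exact hb
  have eP : ∀ g', M1 g' → ¬ Bet N g (P a) (P b) g' → Ext S N P g' l := fun g' hg' hn =>
    ((broken_leaf B hg hh hg' hh' hL hb1 hn).2 l hl hs).ext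
  obtain ⟨⟨g1, hg1, hb2⟩, g2, hg2, hn2⟩ := hit B.cp B.m1 hg ha hb hL.ne hL.np hl eP s1
  have eQ : ∀ k, M3 k → ¬ Bet M h (Q a) (Q b) k → Ext S M Q k l := fun k hk hn => by
    refine ((broken_leaf B.swap hh hg hk hg1 (leaf_swap hL) hb2 hn).2 l hl ?_).ext
    rw [cut_swap]
    exact hs
  obtain ⟨-, h2, hh2, hn3⟩ := hit B.cq B.m3 hh ha hb hL.ne hL.nq hl eQ s3
  by_contra hcard
  have r2 := B.m1.rg g2 hg2
  have k2 := B.m3.rg h2 hh2
  have uP := unbroken rg r2 (B.cp.rg a ha) (B.cp.rg b hb) hn2 (B.m1.ne g2 hg2 a ha)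
    (B.m1.ne g2 hg2 b hb)
  have uQ := unbroken rh k2 (B.cq.rg a ha) (B.cq.rg b hb) hn3 (B.m3.ne h2 hh2 a ha)
    (B.m3.ne h2 hh2 b hb)
  have pne : rot N g2 (P a) ≠ rot N g2 (P b) := fun e =>
    hL.ne (B.cp.inj a ha b hb (rot_inj r2 (B.cp.rg a ha) (B.cp.rg b hb) e))
  have qne : rot M h2 (Q a) ≠ rot M h2 (Q b) := fun e =>
    hL.ne (B.cq.inj a ha b hb (rot_inj k2 (B.cq.rg a ha) (B.cq.rg b hb) e))
  have pne0 : rot N g (P a) ≠ rot N g (P b) := fun e =>
    hL.ne (B.cp.inj a ha b hb (rot_inj rg (B.cp.rg a ha) (B.cp.rg b hb) e))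
  have qne0 : rot M h (Q a) ≠ rot M h (Q b) := fun e =>
    hL.ne (B.cq.inj a ha b hb (rot_inj rh (B.cq.rg a ha) (B.cq.rg b hb) e))
  have adjeq : (cut N M P Q sg g2 h2).G.adj a b ↔ (cut N M P Q sg g h).G.adj a b := by
    simp only [cut, Sdo.G]
    omega
  have exP := eP g2 hg2 hn2
  have exQ := eQ h2 hh2 hn3
  obtain ⟨m, hm, hml, hadjlm⟩ : ∃ m ∈ S, m ≠ l ∧
      ((cut N M P Q sg g2 h2).G.adj m l ↔ (cut N M P Q sg g2 h2).G.adj a b) := by
    rcases hl with rfl | rfl
    · exact ⟨b, hb, hL.ne.symm, ⟨fun h => SG.symm _ h, fun h => SG.symm _ h⟩⟩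
    · exact ⟨a, ha, hL.ne, Iff.rfl⟩
  have hiso : ((cut N M P Q sg g2 h2).G.sg l ∧ ∀ c ∈ S, ¬ (cut N M P Q sg g2 h2).G.adj c l) ∨
      (¬ (cut N M P Q sg g2 h2).G.sg l ∧
        ∀ c ∈ S, c ≠ l → (cut N M P Q sg g2 h2).G.adj c l) := by
    have hsgl : (cut N M P Q sg g2 h2).G.sg l ↔ sg l := Iff.rfl
    rw [hsgl, hs, ← adjeq, ← hadjlm]
    rcases exP with e1 | e1 <;> rcases exQ with e2 | e2
    · left
      have : ∀ c ∈ S, ¬ (cut N M P Q sg g2 h2).G.adj c l := by
        intro c hc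
        by_cases hcl : c = l
        · rw [hcl]
          exact (cut N M P Q sg g2 h2).G.irr l
        · have f1 := e1 c hc hcl
          have f2 := e2 c hc hcl
          simp only [cut, Sdo.G]
          omega
      exact ⟨this m hm, this⟩
    · right
      have : ∀ c ∈ S, c ≠ l → (cut N M P Q sg g2 h2).G.adj c l := by
        intro c hc hcl
        have f1 := e1 c hc hcl
        have f2 := e2 c hc hcl
        simp only [cut, Sdo.G]
        omega
      exact ⟨fun h => h (this m hm hml), this⟩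
    · right
      have : ∀ c ∈ S, c ≠ l → (cut N M P Q sg g2 h2).G.adj c l := by
        intro c hc hcl
        have f1 := e1 c hc hcl
        have f2 := e2 c hc hcl
        simp only [cut, Sdo.G]
        omega
      exact ⟨fun h => h (this m hm hml), this⟩
    · left
      have : ∀ c ∈ S, ¬ (cut N M P Q sg g2 h2).G.adj c l := by
        intro c hc
        by_cases hcl : c = l
        · rw [hcl]
          exact (cut N M P Q sg g2 h2).G.irr l
        · have f1 := e1 c hc hcl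
          have f2 := e2 c hc hcl
          simp only [cut, Sdo.G]
          omega
      exact ⟨this m hm, this⟩
  obtain ⟨hAY, hTY⟩ := rest (B.ax g2 h2 hg2 hh2) hlS hiso (by omega)
  have hinj := B.inj hg2 hh2
  have hinjY : (cut N M P Q sg g2 h2).Inj (S.erase l) :=
    ⟨fun c hc d hd => hinj.p c (mem_of_mem_erase hc) d (mem_of_mem_erase hd),
      fun c hc d hd => hinj.q c (mem_of_mem_erase hc) d (mem_of_mem_erase hd)⟩
  obtain ⟨c, d, hcd⟩ := Sdo.leaf_of_tw hinjY hAY hTY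
  have hc := mem_erase.1 hcd.ha
  have hd := mem_erase.1 hcd.hb
  have hLS : (cut N M P Q sg g2 h2).Leaf S c d := by
    refine ⟨hc.2, hd.2, hcd.ne, fun v hv h' => ?_, fun v hv h' => ?_, hcd.sgn⟩
    · by_cases hvl : v = l
      · subst hvl
        rcases exP with e1 | e1
        · have f1 := e1 c hc.2 hc.1
          have f2 := e1 d hd.2 hd.1
          simp only [cut] at h'
          omega
        · have f1 := e1 c hc.2 hc.1
          have f2 := e1 d hd.2 hd.1
          simp only [cut] at h'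
          omega
      · exact hcd.np v (mem_erase.2 ⟨hvl, hv⟩) h'
    · by_cases hvl : v = l
      · subst hvl
        rcases exQ with e1 | e1
        · have f1 := e1 c hc.2 hc.1
          have f2 := e1 d hd.2 hd.1
          simp only [cut] at h'
          omega
        · have f1 := e1 c hc.2 hc.1
          have f2 := e1 d hd.2 hd.1
          simp only [cut] at h'
          omega
      · exact hcd.nq v (mem_erase.2 ⟨hvl, hv⟩) h'
  -- a mark between the two ends of an edge next to `l` is not between `c` and `d`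
  have fin : ∀ {N : ℤ} {f : V → ℤ} {M' : ℤ → Prop} {g g2 : ℤ}, Cir S N f → Mk S N f M' →
      M' g → M' g2 → ¬ Bet N g (f a) (f b) g2 → Ext S N f g2 l →
      (∀ g', M' g' → ¬ Bet N g (f a) (f b) g' → Ext S N f g' l) →
      (∀ v ∈ S, ¬ Bet N g (f a) (f b) (f v)) →
      ∀ g', M' g' → ¬ Bet N g2 (f c) (f d) g' := by
    intro N f M' g g2 hC hM hg hg2 hn2 hE hall hcons g' hg'
    by_cases hbt : Bet N g (f a) (f b) g'
    · intro hbet
      have r := hM.rg g hg
      have r2 := hM.rg g2 hg2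
      have r' := hM.rg g' hg'
      have hbt2 : Bet N g2 (f a) (f b) g' := by
        rw [unbroken_bet r r2 (hC.rg a ha) (hC.rg b hb) r' hn2 (hM.ne g2 hg2 a ha)
          (hM.ne g2 hg2 b hb)]
        exact hbt
      have hcons2 : ∀ v ∈ S, ¬ Bet N g2 (f a) (f b) (f v) := by
        intro v hv
        rw [unbroken_bet r r2 (hC.rg a ha) (hC.rg b hb) (hC.rg v hv) hn2 (hM.ne g2 hg2 a ha)
          (hM.ne g2 hg2 b hb)]
        exact hcons v hv
      have c1 := hcons2 c hc.2
      have c2 := hcons2 d hd.2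
      unfold Bet at hbet hbt2 c1 c2
      rcases hE with e1 | e1
      · have f1 := e1 c hc.2 hc.1
        have f2 := e1 d hd.2 hd.1
        rcases hl with hl | hl
        · rw [hl] at f1 f2
          omega
        · rw [hl] at f1 f2
          omega
      · have f1 := e1 c hc.2 hc.1
        have f2 := e1 d hd.2 hd.1
        rcases hl with hl | hl
        · rw [hl] at f1 f2
          omega
        · rw [hl] at f1 f2
          omega
    · exact ext_bet hC hM hg2 hg' hlS hE (hall g' hg' hbt) hc.2 hd.2 hc.1 hd.1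
  rcases B.lf g2 h2 hg2 hh2 c d hLS with ⟨g', hg', h5⟩ | ⟨k, hk, h5⟩
  · exact fin B.cp B.m1 hg hg2 hn2 exP eP hL.np g' hg' h5
  · exact fin B.cq B.m3 hh hh2 hn3 exQ eQ hL.nq k hk h5

/-- marks in two gaps of both circuits: only two elements -/
theorem twoSided (B : Base S N M P Q sg M1 M3) (s1 : Sep S N P M1) (s3 : Sep S M Q M3) :
    S.card = 2 := by
  have s1' := s1
  obtain ⟨g, g', hg, -⟩ := s1'
  obtain ⟨h, hh, a, b, hL⟩ := exists_leaf B hg s3
  have h2 : 2 ≤ S.card := one_lt_card.2 ⟨a, hL.ha, b, hL.hb, hL.ne⟩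
  have h3 : S.card ≤ 2 := by
    rcases B.lf g h hg hh a b hL with ⟨g', hg', h1⟩ | ⟨h', hh', h1⟩
    · exact two_aux B.swap s3 s1 hh hg hg' (leaf_swap hL) h1
    · exact two_aux B s1 s3 hg hh hh' hL h1
  omega

end

end H48CP
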