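import Pool.Agent.H21.CK.Defs
import Pool.Agent.H60.CPL.TwoSided

/-!
The statements k0 and k1 on cyclic systems (module E of class K, MP_472c72).
-/

namespace H21CK

open H48CP Finset
open scoped Classical

variable {V : Type*} {D : Sdo V} {S : Finset V} {n m : ℤ} {QA QB : Finset ℤ}

lemma rot_dbl (n c x : ℤ) : H48CP.rot (2 * n) (2 * c) (2 * x + 1) =
    2 * (if x < c then x + n else x) + 1 := by
  unfold H48CP.rot
  split_ifs <;> omega

lemma rot_p (u : V) (c d : ℤ) : H48CP.rot (2 * n) (2 * c) (2 * D.p u + 1) =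
    2 * (rot D n m c d).p u + 1 := rot_dbl n c (D.p u)

lemma rot_q (u : V) (c d : ℤ) : H48CP.rot (2 * m) (2 * d) (2 * D.q u + 1) =
    2 * (rot D n m c d).q u + 1 := rot_dbl m d (D.q u)

lemma adj_rot {c d : ℤ} {a b : V} :
    (rot D n m c d).G.adj a b ↔ (cut (2 * n) (2 * m) (fun v => 2 * D.p v + 1)
      (fun v => 2 * D.q v + 1) D.sg (2 * c) (2 * d)).G.adj a b := by
  simp only [cut, Sdo.G, rot_p (n := n) (m := m) _ c d, rot_q (n := n) (m := m) _ c d]
  constructor <;> intro h <;> omega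

/-- a cyclic system in the form of `Base` -/
theorem Cyc.base (h : Cyc D S n m QA QB) : Base S (2 * n) (2 * m) (fun v => 2 * D.p v + 1)
    (fun v => 2 * D.q v + 1) D.sg (fun g => ∃ c ∈ QA, g = 2 * c) (fun g => ∃ d ∈ QB, g = 2 * d) where
  cp := by
    refine ⟨fun v hv => ?_, fun a ha b hb e => h.inj.p a ha b hb (by omega)⟩
    have := h.hp v hv
    unfold Rg
    omega
  cq := by
    refine ⟨fun v hv => ?_, fun a ha b hb e => h.inj.q a ha b hb (by omega)⟩
    have := h.hq v hv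
    unfold Rg
    omega
  m1 := by
    refine ⟨?_, ?_⟩
    · rintro g ⟨c, hc, rfl⟩
      have := h.hQA c hc
      unfold Rg
      omega
    · rintro g ⟨c, hc, rfl⟩ v _
      omega
  m3 := by
    refine ⟨?_, ?_⟩
    · rintro g ⟨c, hc, rfl⟩
      have := h.hQB c hc
      unfold Rg
      omega
    · rintro g ⟨c, hc, rfl⟩ v _
      omega
  ax := by
    rintro g k ⟨c, hc, rfl⟩ ⟨d, hd, rfl⟩
    have hA : SG.Agr (rot D n m c d).G (cut (2 * n) (2 * m) (fun v => 2 * D.p v + 1)
        (fun v => 2 * D.q v + 1) D.sg (2 * c) (2 * d)).G S :=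
      ⟨fun a _ b _ => adj_rot, fun a _ => Iff.rfl⟩
    exact hA.ax (h.ax c hc d hd)
  lf := by
    rintro g k ⟨c, hc, rfl⟩ ⟨d, hd, rfl⟩ a b hL
    have rgn : ∀ c ∈ QA, Rg (2 * n) (2 * c) := fun c hc => by
      have := h.hQA c hc
      unfold Rg
      omega
    have rgm : ∀ d ∈ QB, Rg (2 * m) (2 * d) := fun c hc => by
      have := h.hQB c hc
      unfold Rg
      omega
    have rp : ∀ v ∈ S, Rg (2 * n) (2 * D.p v + 1) := fun v hv => by
      have := h.hp v hv
      unfold Rg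
      omega
    have rq : ∀ v ∈ S, Rg (2 * m) (2 * D.q v + 1) := fun v hv => by
      have := h.hq v hv
      unfold Rg
      omega
    have hLP : LeafPair (rot D n m c d) S a b := by
      refine ⟨hL.ha, hL.hb, hL.ne, fun u hu => ?_, fun u hu => ?_, ?_⟩
      · have := hL.np u hu
        simp only [cut, rot_p (n := n) (m := m) _ c d] at this
        omega
      · have := hL.nq u hu
        simp only [cut, rot_q (n := n) (m := m) _ c d] at this
        omega
      · have h1 := hL.sgn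
        rw [← adj_rot] at h1
        have h2 : (rot D n m c d).sg = D.sg := rfl
        have h3 : (cut (2 * n) (2 * m) (fun v => 2 * D.p v + 1)
          (fun v => 2 * D.q v + 1) D.sg (2 * c) (2 * d)).sg = D.sg := rfl
        rw [h3] at h1
        rw [h2]
        tauto
    rcases h.leafless c hc d hd a b hLP with ⟨c', hc', h1⟩ | ⟨d', hd', h1⟩
    · left
      refine ⟨2 * c', ⟨c', hc', rfl⟩, ?_⟩
      by_contra h2
      have h3 := unbroken (rgn c hc) (rgn c' hc') (rp a hL.ha) (rp b hL.hb) h2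
        (by omega) (by omega)
      rw [rot_p (n := n) (m := m) _ c d, rot_p (n := n) (m := m) _ c d,
        rot_p (n := n) (m := m) _ c' d, rot_p (n := n) (m := m) _ c' d] at h3
      apply h1
      omega
    · right
      refine ⟨2 * d', ⟨d', hd', rfl⟩, ?_⟩
      by_contra h2
      have h3 := unbroken (rgm d hd) (rgm d' hd') (rq a hL.ha) (rq b hL.hb) h2
        (by omega) (by omega)
      rw [rot_q (n := n) (m := m) _ c d, rot_q (n := n) (m := m) _ c d,
        rot_q (n := n) (m := m) _ c d', rot_q (n := n) (m := m) _ c d'] at h3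
      apply h1
      omega

lemma Cyc.sepP (h : Cyc D S n m QA QB) (h1 : TwoP D S QA) :
    Sep S (2 * n) (fun v => 2 * D.p v + 1) (fun g => ∃ c ∈ QA, g = 2 * c) := by
  obtain ⟨c, hc, c', hc', hlt, ⟨u, hu, hu1⟩, u', hu', hu2⟩ := h1
  refine ⟨2 * c, 2 * c', ⟨c, hc, rfl⟩, ⟨c', hc', rfl⟩, u, hu, u', hu', ?_, ?_⟩
  · have := h.hp u hu
    have := h.hQA c hc
    simp only [H48CP.rot]
    split_ifs <;> omega
  · have := h.hp u' hu'
    have := h.hQA c' hc'
    simp only [H48CP.rot]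
    split_ifs <;> omega

lemma Cyc.sepQ (h : Cyc D S n m QA QB) (h1 : TwoQ D S QB) :
    Sep S (2 * m) (fun v => 2 * D.q v + 1) (fun g => ∃ c ∈ QB, g = 2 * c) := by
  obtain ⟨c, hc, c', hc', hlt, ⟨u, hu, hu1⟩, u', hu', hu2⟩ := h1
  refine ⟨2 * c, 2 * c', ⟨c, hc, rfl⟩, ⟨c', hc', rfl⟩, u, hu, u', hu', ?_, ?_⟩
  · have := h.hq u hu
    have := h.hQB c hc
    simp only [H48CP.rot]
    split_ifs <;> omega
  · have := h.hq u' hu'
    have := h.hQB c' hc'
    simp only [H48CP.rot]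
    split_ifs <;> omega

/-- marks in two gaps of both circuits: only two elements -/
theorem k1 (h : Cyc D S n m QA QB) (h1 : TwoP D S QA) (h2 : TwoQ D S QB) : S.card = 2 :=
  twoSided h.base (h.sepP h1) (h.sepQ h2)

/-- one cut of the first circuit, marks in two gaps of the second: an end of a leaf next to the cut -/
theorem k0 (h : Cyc D S n m {0} QB) (h2 : TwoQ D S QB) : ∃ l ∈ S, ∃ d ∈ QB,
    ((∀ c ∈ S, c ≠ l → D.p l < D.p c) ∧
      ((¬ D.sg l ∧ ∀ c ∈ S, c ≠ l → (rot D n m 0 d).q l < (rot D n m 0 d).q c) ∨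
        (D.sg l ∧ ∀ c ∈ S, c ≠ l → (rot D n m 0 d).q c < (rot D n m 0 d).q l))) ∨
    ((∀ c ∈ S, c ≠ l → D.p c < D.p l) ∧
      ((¬ D.sg l ∧ ∀ c ∈ S, c ≠ l → (rot D n m 0 d).q c < (rot D n m 0 d).q l) ∨
        (D.sg l ∧ ∀ c ∈ S, c ≠ l → (rot D n m 0 d).q l < (rot D n m 0 d).q c))) := by
  obtain ⟨l, hl, g, ⟨d, hd, rfl⟩, hE⟩ := oneSided h.base (g := 2 * 0) ⟨0, by simp, rfl⟩
    (by
      rintro g' ⟨c, hc, rfl⟩
      simp only [mem_singleton] at hc
      rw [hc]) (h.sepQ h2)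
  refine ⟨l, hl, d, hd, ?_⟩
  unfold Endp at hE
  simp only [rot_p (n := n) (m := m) _ 0 d, rot_q (n := n) (m := m) _ 0 d] at hE
  have e0 : ∀ v ∈ S, (rot D n m 0 d).p v = D.p v := by
    intro v hv
    have := h.hp v hv
    simp only [rot]
    rw [if_neg (by omega)]
  rw [e0 l hl] at hE
  rcases hE with ⟨h1, h3⟩ | ⟨h1, h3⟩
  · left
    refine ⟨fun c hc hcl => ?_, ?_⟩
    · have := h1 c hc hcl
      rw [e0 c hc] at this
      omega
    · rcases h3 with ⟨h4, h5⟩ | ⟨h4, h5⟩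
      · exact Or.inl ⟨h4, fun c hc hcl => by have := h5 c hc hcl; omega⟩
      · exact Or.inr ⟨h4, fun c hc hcl => by have := h5 c hc hcl; omega⟩
  · right
    refine ⟨fun c hc hcl => ?_, ?_⟩
    · have := h1 c hc hcl
      rw [e0 c hc] at this
      omega
    · rcases h3 with ⟨h4, h5⟩ | ⟨h4, h5⟩
      · exact Or.inl ⟨h4, fun c hc hcl => by have := h5 c hc hcl; omega⟩
      · exact Or.inr ⟨h4, fun c hc hcl => by have := h5 c hc hcl; omega⟩

end H21CK
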