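import Pool.Agent.H60.CPL.Rot

/-!
One circuit with marks (project CP, MP_472c72).
-/

namespace H48CP

open Finset
open scoped Classical

variable {V : Type*}

/-- the elements of `S` on a circuit of length `N` -/
structure Cir (S : Finset V) (N : ℤ) (f : V → ℤ) : Prop where
  rg : ∀ v ∈ S, Rg N (f v)
  inj : ∀ a ∈ S, ∀ b ∈ S, f a = f b → a = b

/-- the marks on a circuit: places for cuts -/
structure Mk (S : Finset V) (N : ℤ) (f : V → ℤ) (M : ℤ → Prop) : Prop where
  rg : ∀ g, M g → Rg N g
  ne : ∀ g, M g → ∀ v ∈ S, f v ≠ g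

/-- two marks which are in different gaps -/
def Sep (S : Finset V) (N : ℤ) (f : V → ℤ) (M : ℤ → Prop) : Prop :=
  ∃ g g', M g ∧ M g' ∧ ∃ v ∈ S, ∃ v' ∈ S, rot N g (f v) < rot N g g' ∧ rot N g g' < rot N g (f v')

/-- `l` is the first or the last element -/
def Ext (S : Finset V) (N : ℤ) (f : V → ℤ) (g : ℤ) (l : V) : Prop :=
  (∀ c ∈ S, c ≠ l → rot N g (f l) < rot N g (f c)) ∨
    (∀ c ∈ S, c ≠ l → rot N g (f c) < rot N g (f l))

section

variable {S : Finset V} {N : ℤ} {f : V → ℤ} {M : ℤ → Prop} {g g1 g2 g3 : ℤ} {a b l m : V}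

lemma hit_aux (hC : Cir S N f) (hM : Mk S N f M) (hl : l ∈ S) (hm : m ∈ S) (hlm : l ≠ m)
    (h1 : M g1) (h2 : M g2) (e1 : Ext S N f g1 l) (e2 : Ext S N f g2 l)
    (hn : ¬ Bet N g1 (f l) (f m) g2) {v v' : V} (hv : v ∈ S) (hv' : v' ∈ S)
    (hs1 : rot N g1 (f v) < rot N g1 g2) (hs2 : rot N g1 g2 < rot N g1 (f v')) : False := by
  have r1 := hM.rg g1 h1
  have r2 := hM.rg g2 h2
  have rl := hC.rg l hl
  have rm := hC.rg m hm
  have rv := hC.rg v hv
  have rv' := hC.rg v' hv'
  have nl : rot N g1 (f l) ≠ rot N g1 g2 := fun e => hM.ne g2 h2 l hl (rot_inj r1 rl r2 e)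
  have nm : rot N g1 (f m) ≠ rot N g1 g2 := fun e => hM.ne g2 h2 m hm (rot_inj r1 rm r2 e)
  unfold Bet at hn
  have lv : rot N g1 (f l) ≤ rot N g1 (f v) ∨ rot N g1 (f v') ≤ rot N g1 (f l) := by
    rcases e1 with h | h
    · left
      by_cases hvl : v = l
      · rw [hvl]
      · exact (h v hv hvl).le
    · right
      by_cases hvl : v' = l
      · rw [hvl]
      · exact (h v' hv' hvl).le
  rcases lv with lv | lv
  · have hv'l : v' ≠ l := by
      rintro rfl
      omega
    have h5 : rot N g2 (f v') < rot N g2 (f l) := by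
      rw [rot_lt r1 r2 rv' rl]
      left
      omega
    have h6 : rot N g2 (f l) < rot N g2 (f m) := by
      have e1m : rot N g1 (f l) < rot N g1 (f m) := by
        rcases e1 with h | h
        · exact h m hm hlm.symm
        · have := h v' hv' hv'l
          omega
      rw [rot_lt r1 r2 rl rm]
      right
      omega
    rcases e2 with h | h
    · have := h v' hv' hv'l
      omega
    · have := h m hm hlm.symm
      omega
  · have hvl : v ≠ l := by
      rintro rfl
      omega
    have h5 : rot N g2 (f l) < rot N g2 (f v) := by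
      rw [rot_lt r1 r2 rl rv]
      left
      omega
    have h6 : rot N g2 (f m) < rot N g2 (f l) := by
      have e1m : rot N g1 (f m) < rot N g1 (f l) := by
        rcases e1 with h | h
        · have := h v hv hvl
          omega
        · exact h m hm hlm.symm
      rw [rot_lt r1 r2 rm rl]
      right
      omega
    rcases e2 with h | h
    · have := h m hm hlm.symm
      omega
    · have := h v hv hvl
      omega

/-- both gaps next to `l` contain a mark -/
lemma hit (hC : Cir S N f) (hM : Mk S N f M) (hg : M g) (ha : a ∈ S) (hb : b ∈ S) (hab : a ≠ b)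
    (hcons : ∀ c ∈ S, ¬ Bet N g (f a) (f b) (f c)) (hl : l = a ∨ l = b)
    (hext : ∀ g', M g' → ¬ Bet N g (f a) (f b) g' → Ext S N f g' l) (hs : Sep S N f M) :
    (∃ g', M g' ∧ Bet N g (f a) (f b) g') ∧ ∃ g', M g' ∧ ¬ Bet N g (f a) (f b) g' := by
  obtain ⟨g1, g2, h1, h2, v, hv, v', hv', hs1, hs2⟩ := hs
  have r0 := hM.rg g hg
  have r1 := hM.rg g1 h1
  have r2 := hM.rg g2 h2
  have ra := hC.rg a ha
  have rb := hC.rg b hb
  constructor
  · by_contra hcon
    push Not at hcon
    have n1 := hcon g1 h1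
    have n2 := hcon g2 h2
    have e1 := hext g1 h1 n1
    have e2 := hext g2 h2 n2
    have n3 : ¬ Bet N g1 (f a) (f b) g2 := by
      rw [unbroken_bet r0 r1 ra rb r2 n1 (hM.ne g1 h1 a ha) (hM.ne g1 h1 b hb)]
      exact n2
    rcases hl with rfl | rfl
    · exact hit_aux hC hM ha hb hab h1 h2 e1 e2 n3 hv hv' hs1 hs2
    · exact hit_aux hC hM hb ha hab.symm h1 h2 e1 e2 (fun h' => n3 h'.symm) hv hv' hs1 hs2
  · by_contra hcon
    push Not at hcon
    have n1 := hcon g1 h1
    have n2 := hcon g2 h2
    have cv := hcons v hv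
    have cv' := hcons v' hv'
    rw [rot_lt r0 r1 (hC.rg v hv) r2] at hs1
    rw [rot_lt r0 r1 r2 (hC.rg v' hv')] at hs2
    unfold Bet at n1 n2 cv cv'
    generalize rot N g (f a) = A at *
    generalize rot N g (f b) = B at *
    generalize rot N g (f v) = C at *
    generalize rot N g (f v') = C' at *
    generalize rot N g g1 = X at *
    generalize rot N g g2 = Y at *
    omega

/-- a mark at which `l` is extreme does not separate two other elements -/
lemma ext_bet (hC : Cir S N f) (hM : Mk S N f M) (h2 : M g2) (h3 : M g3) (hl : l ∈ S)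
    (e2 : Ext S N f g2 l) (e3 : Ext S N f g3 l) (ha : a ∈ S) (hb : b ∈ S) (hal : a ≠ l)
    (hbl : b ≠ l) : ¬ Bet N g2 (f a) (f b) g3 := by
  have key : ∀ a b, a ∈ S → b ∈ S → a ≠ l → b ≠ l →
      ¬ (rot N g2 (f a) < rot N g2 g3 ∧ rot N g2 g3 < rot N g2 (f b)) := by
    rintro a b ha hb hal hbl ⟨h5, h6⟩
    have r2 := hM.rg g2 h2
    have r3 := hM.rg g3 h3
    have ra := hC.rg a ha
    have rb := hC.rg b hb
    have rl := hC.rg l hl
    have s1 : rot N g3 (f b) < rot N g3 (f l) := by
      rw [rot_lt r2 r3 rb rl]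
      rcases e2 with h | h
      · have := h a ha hal
        left
        omega
      · have := h b hb hbl
        right
        omega
    have s2 : rot N g3 (f l) < rot N g3 (f a) := by
      rw [rot_lt r2 r3 rl ra]
      rcases e2 with h | h
      · have := h a ha hal
        right
        omega
      · have := h b hb hbl
        left
        omega
    rcases e3 with h | h
    · have := h b hb hbl
      omega
    · have := h a ha hal
      omega
  rintro (h | h)
  · exact key a b ha hb hal hbl h
  · exact key b a hb ha hbl hal h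

end

end H48CP
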