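import Mathlib

namespace H48CP

/-- position of `x` when the circuit of length `N` is cut before `g` -/
def rot (N g x : ℤ) : ℤ := if x < g then x + N else x

/-- `z` lies between `x` and `y` when the circuit is cut before `g` -/
def Bet (N g x y z : ℤ) : Prop :=
  (rot N g x < rot N g z ∧ rot N g z < rot N g y) ∨ (rot N g y < rot N g z ∧ rot N g z < rot N g x)

/-- `x` is a position -/
def Rg (N x : ℤ) : Prop := 0 ≤ x ∧ x < N

section

variable {N g g' a b c x y z : ℤ}

lemma rot_lt (hg : Rg N g) (hg' : Rg N g') (hx : Rg N x) (hy : Rg N y) :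
    rot N g' x < rot N g' y ↔ (rot N g g' ≤ rot N g x ∧ rot N g y < rot N g g') ∨
      ((rot N g x < rot N g g' ↔ rot N g y < rot N g g') ∧ rot N g x < rot N g y) := by
  unfold Rg at *
  unfold rot
  split_ifs <;> constructor <;> intro h <;> omega

lemma rot_inj (hg : Rg N g) (hx : Rg N x) (hy : Rg N y) (h : rot N g x = rot N g y) : x = y := by
  unfold Rg at *
  unfold rot at h
  split_ifs at h <;> omega

lemma Bet.symm (h : Bet N g x y z) : Bet N g y x z := by
  unfold Bet at *
  tauto

/-- moving the cut to a place which is not between `a` and `b` -/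
lemma unbroken (hg : Rg N g) (hg' : Rg N g') (ha : Rg N a) (hb : Rg N b) (h : ¬ Bet N g a b g')
    (h1 : a ≠ g') (h2 : b ≠ g') : rot N g' a < rot N g' b ↔ rot N g a < rot N g b := by
  have e1 : rot N g a ≠ rot N g g' := fun e => h1 (rot_inj hg ha hg' e)
  have e2 : rot N g b ≠ rot N g g' := fun e => h2 (rot_inj hg hb hg' e)
  rw [rot_lt hg hg' ha hb]
  unfold Bet at h
  generalize rot N g a = A at *
  generalize rot N g b = B at *
  generalize rot N g g' = C at *
  constructor <;> intro h' <;> omega

lemma unbroken_bet (hg : Rg N g) (hg' : Rg N g') (ha : Rg N a) (hb : Rg N b) (hc : Rg N c)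
    (h : ¬ Bet N g a b g') (h1 : a ≠ g') (h2 : b ≠ g') : Bet N g' a b c ↔ Bet N g a b c := by
  have e1 : rot N g a ≠ rot N g g' := fun e => h1 (rot_inj hg ha hg' e)
  have e2 : rot N g b ≠ rot N g g' := fun e => h2 (rot_inj hg hb hg' e)
  unfold Bet at h ⊢
  rw [rot_lt hg hg' ha hc, rot_lt hg hg' hc hb, rot_lt hg hg' hb hc, rot_lt hg hg' hc ha]
  generalize rot N g a = A at *
  generalize rot N g b = B at *
  generalize rot N g c = C at *
  generalize rot N g g' = D at *
  constructor <;> intro h' <;> omega

/-- moving the cut between two neighbours -/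
lemma broken (hg : Rg N g) (hg' : Rg N g') (ha : Rg N a) (hb : Rg N b) (hc : Rg N c)
    (h : Bet N g a b g') (hab : rot N g a < rot N g b) (hac : ¬ Bet N g a b c) :
    (c ≠ b → rot N g' b < rot N g' c) ∧ (c ≠ a → rot N g' c < rot N g' a) := by
  rw [rot_lt hg hg' hb hc, rot_lt hg hg' hc ha]
  have e1 : c ≠ a → rot N g c ≠ rot N g a := fun e e' => e (rot_inj hg hc ha e')
  have e2 : c ≠ b → rot N g c ≠ rot N g b := fun e e' => e (rot_inj hg hc hb e')
  unfold Bet at h hac
  constructor
  · intro hc1
    have := e2 hc1
    by_cases hca : c = a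
    · subst hca
      generalize rot N g c = A at *
      generalize rot N g b = B at *
      generalize rot N g g' = D at *
      omega
    · have := e1 hca
      generalize rot N g a = A at *
      generalize rot N g b = B at *
      generalize rot N g c = C at *
      generalize rot N g g' = D at *
      omega
  · intro hc1
    have := e1 hc1
    by_cases hcb : c = b
    · subst hcb
      generalize rot N g a = A at *
      generalize rot N g c = B at *
      generalize rot N g g' = D at *
      omega
    · have := e2 hcb
      generalize rot N g a = A at *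
      generalize rot N g b = B at *
      generalize rot N g c = C at *
      generalize rot N g g' = D at *
      omega

end

end H48CP
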